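import Pool.Agent.helper23.PL.SpecE

/-!
# Project pl: (MP_70a088_an, THEOREM P1), block E, row eNZ: before the first violation the deck groups are not cyclic
-/

set_option autoImplicit false

open Complex Metric Set Filter Topology MeasureTheory
open Pool.Agent.helper98.ILF
open WP (it)
open HY (UD T S hd UN RM)
open PM

noncomputable section

namespace PL

/-- a state of the descent. -/
structure eNZ_St (f : Polynomial ℂ) (R : ℝ) (x : ℂ) (U : Ultrafilter ℕ) (n t : ℕ → ℕ) (χ : ℂ → ℂ) where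
  w : ℕ → ℕ
  G : ℂ → ℂ
  g : Equiv.Perm ℂ
  c : ℂ
  e : ℂ
  lt : ∀ᶠ j in (U : Filter ℕ), w j < t j
  tl : TL f R x U (fun j => n j + t j) χ w G
  cy : CY (DK (χ '' UD) G) g
  eU : e ∈ UD
  im : G '' (χ '' UD) = UD \ {e}
  cp : c ∈ CP f
  cJ : c ∈ JJ f
  cV : ∀ᶠ j in (U : Filter ℕ), c ∈ VC f R (n j + t j - w j) (it f (w j) x)
  lim : Tendsto (fun j => cx (VC f R (n j + t j - w j) (it f (w j) x)) (it f (w j) x) c) U (𝓝 e)

theorem eNZ_it (f : Polynomial ℂ) (i j : ℕ) (z : ℂ) : it f i (it f j z) = it f (i + j) z :=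
  (Function.iterate_add_apply _ i j z).symm

theorem eNZ_itJ {f : Polynomial ℂ} {R δ e₀ d₀ : ℝ} {k₀ : ℕ} (hST : ST f R δ e₀ d₀ k₀) {p : ℂ} (hp : p ∈ JJ f) :
    ∀ i : ℕ, it f i p ∈ JJ f := by
  intro i
  induction i with
  | zero => exact hp
  | succ n ih =>
    have h : it f (n + 1) p = f.eval (it f n p) := by
      show (fun z : ℂ => f.eval z)^[n + 1] p = _
      rw [Function.iterate_succ_apply']
      rfl
    rw [h]
    exact (hST.Ji _).2 ih

theorem eNZ (hPG : ePG_stmt) (hSTP : eSTP_stmt) (hCMP : eCMP_stmt) (hPUN : ePUN_stmt) (hTGT : eTGT_stmt) (hATR : eATR_stmt)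
    (hTPT : TPT_stmt) (hTDF : TDF_stmt) (hTIN : TIN_stmt) (hVCF : VCF_stmt) : NZ_stmt := by
  intro f R δ e₀ d₀ k₀ hST μ x hTP U a n t hU ha hVD χ hFR w G hwt hTL
  refine ⟨hPG f R δ e₀ d₀ k₀ hST μ x hTP U a n t hU ha hVD χ hFR w G hwt hTL, ?_⟩
  intro g hCY
  have hER : ER f R := ⟨hST.R1, hST.esc⟩
  have hxJ := hTP.mem
  have hJ : ∀ i k : ℕ, it f i x ∈ VK f R k := fun i k => hST.Jv _ (eNZ_itJ hST hxJ i) k
  -- the first state
  have hfirst : ∀ (w : ℕ → ℕ) (G : ℂ → ℂ) (g : Equiv.Perm ℂ), (∀ᶠ j in (U : Filter ℕ), w j ≤ t j) →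
      TL f R x U (fun j => n j + t j) χ w G → CY (DK (χ '' UD) G) g →
      ∃ s : eNZ_St f R x U n t χ, (∀ᶠ j in (U : Filter ℕ), s.w j < w j) ∧ ∃ M : ℕ, 1 ≤ M ∧ s.g = g ^ M := by
    intro w G g hw hG hg
    obtain ⟨w', G', M, c, e, h1, h2, h3, h4, h5, h6, h7, h8, h9, h10⟩ :=
      hSTP f R δ e₀ d₀ k₀ hST μ x hTP U a n t hU ha hVD χ hFR w G hw hG g hg
    exact ⟨⟨w', G', g ^ M, c, e, by filter_upwards [h1, hw] with j hj hj'; omega, h2, h4, h5, h6, h7, h8, h9, h10⟩, h1, M, h3, rfl⟩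
  have hstep : ∀ s : eNZ_St f R x U n t χ, ∃ s' : eNZ_St f R x U n t χ, (∀ᶠ j in (U : Filter ℕ), s'.w j < s.w j) ∧
      ∃ M : ℕ, 1 ≤ M ∧ s'.g = s.g ^ M := fun s => hfirst s.w s.G s.g (s.lt.mono fun j hj => hj.le) s.tl s.cy
  obtain ⟨s₀, -⟩ := hfirst w G g hwt hTL hCY
  choose nxt hnxt1 hnxt2 using hstep
  let Sq : ℕ → eNZ_St f R x U n t χ := fun i => nxt^[i] s₀
  have hSq : ∀ i, Sq (i + 1) = nxt (Sq i) := fun i => Function.iterate_succ_apply' nxt i s₀
  have hchain : ∀ i d : ℕ, (∀ᶠ j in (U : Filter ℕ), (Sq (i + d + 1)).w j < (Sq i).w j) ∧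
      ∃ M : ℕ, 1 ≤ M ∧ (Sq (i + d + 1)).g = (Sq i).g ^ M := by
    intro i d
    induction d with
    | zero =>
      rw [add_zero, hSq]
      exact ⟨hnxt1 _, hnxt2 _⟩
    | succ d ih =>
      obtain ⟨ih1, M, hM, ih2⟩ := ih
      have e1 : i + (d + 1) + 1 = (i + d + 1) + 1 := by omega
      rw [e1, hSq]
      obtain ⟨M', hM', h2⟩ := hnxt2 (Sq (i + d + 1))
      refine ⟨?_, M * M', Nat.mul_pos hM hM', ?_⟩
      · filter_upwards [ih1, hnxt1 (Sq (i + d + 1))] with j hj hj'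
        omega
      · rw [h2, ih2, pow_mul]
  -- pigeonhole
  obtain ⟨i₁, i₂, hne, heq⟩ := Finite.exists_ne_map_eq_of_infinite (fun i : ℕ => (⟨(Sq i).c, (Sq i).cp⟩ : {c // c ∈ CP f}))
  have heq' : (Sq i₁).c = (Sq i₂).c := congrArg Subtype.val heq
  obtain ⟨A, B, hAB, hc⟩ : ∃ A B : ℕ, A < B ∧ (Sq A).c = (Sq B).c := by
    rcases lt_or_gt_of_ne hne with h | h
    · exact ⟨i₁, i₂, h, heq'⟩
    · exact ⟨i₂, i₁, h, heq'.symm⟩
  obtain ⟨d, rfl⟩ : ∃ d, B = A + d + 1 := ⟨B - A - 1, by omega⟩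
  obtain ⟨hwlt, M, hM, hgM⟩ := hchain A d
  set sa := Sq A with hsa
  set sb := Sq (A + d + 1) with hsb
  -- the composition
  have hle : ∀ᶠ j in (U : Filter ℕ), sb.w j ≤ sa.w j := hwlt.mono fun j hj => hj.le
  obtain ⟨Q, hQd, hQm, hQ0, hQlim, hQG, -⟩ := hCMP f R δ e₀ d₀ k₀ hST x hxJ U _ χ hFR sb.w sa.w sb.G sa.G sb.tl sa.tl hle
  have hPGa := hPG f R δ e₀ d₀ k₀ hST μ x hTP U a n t hU ha hVD χ hFR sa.w sa.G (sa.lt.mono fun j hj => hj.le) sa.tl
  have hPGb := hPG f R δ e₀ d₀ k₀ hST μ x hTP U a n t hU ha hVD χ hFR sb.w sb.G (sb.lt.mono fun j hj => hj.le) sb.tl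
  have hCYb : CY (DK (χ '' UD) sb.G) (sa.g ^ M) := by
    have := sb.cy
    rwa [hgM] at this
  have hQe : Q sb.e = sa.e := (hPUN (χ '' UD) sb.G sa.G sa.g M sb.e sa.e Q hPGb hPGa sa.cy hM hCYb sb.eU sa.eU sb.im sa.im hQd hQm hQG).1
  -- the limits
  have hUDo : IsOpen UD := isOpen_ball
  have hyb := sb.lim
  have hya := sa.lim
  rw [hc] at hya
  have hcVa := sa.cV
  rw [hc] at hcVa
  have hcVb := sb.cV
  have hcJ := sb.cJ
  have hcp := sb.cp
  set c := sb.c with hcd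
  have hQlim2 : Tendsto (fun j => BJ f R x (n j + t j) (sb.w j) (sa.w j)
      (cx (VC f R (n j + t j - sb.w j) (it f (sb.w j) x)) (it f (sb.w j) x) c)) U (𝓝 sa.e) := by
    rw [← hQe]
    apply hQlim.tendsto_comp (hQd.continuousOn sb.e sb.eU) sb.eU
    rw [tendsto_nhdsWithin_iff]
    exact ⟨hyb, hyb.eventually (hUDo.mem_nhds sb.eU)⟩
  -- the target
  have heb1 : ‖sb.e‖ < 1 := by simpa [UD] using sb.eU
  have hρ1 : (1 + ‖sb.e‖) / 2 < 1 := by linarith
  have hgb : sb.g ∈ DK (χ '' UD) sb.G := by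
    rw [sb.cy.1]
    exact Subgroup.mem_zpowers _
  obtain ⟨κ, hκ, htgt⟩ := hTGT f R δ e₀ d₀ k₀ hST μ x hTP U a n t hU ha hVD χ hFR sb.w sb.G sb.lt sb.tl sb.g hgb
    sb.cy.2.1 ((1 + ‖sb.e‖) / 2) hρ1
  obtain ⟨ε, hε, hatr⟩ := hATR f R δ e₀ d₀ k₀ hST κ hκ
  -- the distance of c and f^m c
  have hT0 : Tendsto (fun j => ‖T (cx (VC f R (n j + t j - sa.w j) (it f (sa.w j) x)) (it f (sa.w j) x) c)
      (BJ f R x (n j + t j) (sb.w j) (sa.w j)
      (cx (VC f R (n j + t j - sb.w j) (it f (sb.w j) x)) (it f (sb.w j) x) c))‖) U (𝓝 0) := by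
    have hea1 : ‖sa.e‖ < 1 := by simpa [UD] using sa.eU
    have hden : (1 : ℂ) - (starRingEnd ℂ) sa.e * sa.e ≠ 0 := by
      intro h0
      have h1 : (starRingEnd ℂ) sa.e * sa.e = 1 := by linear_combination -h0
      have h2 : ‖(starRingEnd ℂ) sa.e * sa.e‖ < 1 := by
        rw [norm_mul, RCLike.norm_conj]
        nlinarith [norm_nonneg sa.e]
      rw [h1] at h2
      simp at h2
    have h1 : Tendsto (fun j => (BJ f R x (n j + t j) (sb.w j) (sa.w j)
        (cx (VC f R (n j + t j - sb.w j) (it f (sb.w j) x)) (it f (sb.w j) x) c) -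
        cx (VC f R (n j + t j - sa.w j) (it f (sa.w j) x)) (it f (sa.w j) x) c) /
        (1 - (starRingEnd ℂ) (cx (VC f R (n j + t j - sa.w j) (it f (sa.w j) x)) (it f (sa.w j) x) c) *
        BJ f R x (n j + t j) (sb.w j) (sa.w j)
        (cx (VC f R (n j + t j - sb.w j) (it f (sb.w j) x)) (it f (sb.w j) x) c))) U
        (𝓝 ((sa.e - sa.e) / (1 - (starRingEnd ℂ) sa.e * sa.e))) := by
      apply Tendsto.div (hQlim2.sub hya) _ hden
      apply Tendsto.sub tendsto_const_nhds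
      apply Tendsto.mul _ hQlim2
      exact (continuous_star.tendsto sa.e).comp hya
    rw [sub_self, zero_div] at h1
    have h2 := h1.norm
    rw [norm_zero] at h2
    exact h2
  have hev : ∀ᶠ j in (U : Filter ℕ), ‖cx (VC f R (n j + t j - sb.w j) (it f (sb.w j) x)) (it f (sb.w j) x) c‖ <
      (1 + ‖sb.e‖) / 2 := hyb.norm.eventually_lt_const (by linarith)
  have hall : ∀ᶠ j in (U : Filter ℕ), False := by
    filter_upwards [hwlt, sa.lt, hcVa, hcVb, htgt, hT0.eventually_lt_const hε, hev, hVD.le] with j h1 h2 h3 h4 h5 h6 h7 h8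
    set H := n j + t j with hH
    set wa := sa.w j with hwa
    set wb := sb.w j with hwb
    set m := wa - wb with hm
    set l := H - wa with hl
    have hlm : H - wb = l + m := by omega
    have hm1 : 1 ≤ m := by omega
    have hjl : j ≤ l := by omega
    rw [hlm] at h4 h5 h6 h7
    obtain ⟨hDa, -, -, hsa', -⟩ := hVCF f R hST.deg hER l (it f wa x) (hJ wa l)
    obtain ⟨hDb, -, -, hsb', -, -, hmap, -⟩ := hVCF f R hST.deg hER (l + m) (it f wb x) (hJ wb (l + m))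
    have hVca : VC f R l c = VC f R l (it f wa x) := hsa' c h3
    have hitm : it f m (it f wb x) = it f wa x := by
      rw [eNZ_it]
      congr 1
      omega
    have hfm : it f m c ∈ VC f R l (it f wa x) := by
      have := hmap m (by omega) h4
      rw [hitm] at this
      have e1 : l + m - m = l := by omega
      rwa [e1] at this
    -- the value of BJ
    have hBJ : BJ f R x H wb wa (cx (VC f R (l + m) (it f wb x)) (it f wb x) c) =
        cx (VC f R l (it f wa x)) (it f wa x) (it f m c) := by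
      unfold BJ
      rw [hlm]
      have hrc : rm (VC f R (l + m) (it f wb x)) (it f wb x) (cx (VC f R (l + m) (it f wb x)) (it f wb x) c) = c :=
        ((((hTDF _ hDb).2.2 _ (hVCF f R hST.deg hER (l + m) (it f wb x) (hJ wb (l + m))).2.1).2.2.2.2.2.1) c h4).2.1
      rw [hrc]
    rw [hBJ] at h6
    have hwaV : it f wa x ∈ VC f R l (it f wa x) := (hVCF f R hST.deg hER l (it f wa x) (hJ wa l)).2.1
    have hpd : pd (VC f R l (it f wa x)) c (it f m c) =
        ‖T (cx (VC f R l (it f wa x)) (it f wa x) c) (cx (VC f R l (it f wa x)) (it f wa x) (it f m c))‖ :=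
      (hTPT _ hDa _ hwaV c h3 _ hfm).2.2.2.2
    have hpdε : pd (VC f R l c) c (it f m c) < ε := by
      rw [hVca, hpd]
      exact h6
    -- the sizes
    have hwbV : it f wb x ∈ VC f R (l + m) (it f wb x) := (hVCF f R hST.deg hER (l + m) (it f wb x) (hJ wb (l + m))).2.1
    have hpdb : pd (VC f R (l + m) (it f wb x)) (it f wb x) c ≤ (1 + ‖sb.e‖) / 2 := by
      rw [((((hTDF _ hDb).2.2 _ hwbV).2.2.2.2.2.1) c h4).2.2.1]
      exact h7.le
    have h9 := h5 c h4 hpdb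
    have hcVK : c ∈ VK f R l := hST.Jv c hcJ l
    obtain ⟨hDc, hcc, -, -, -, hnest, -, -⟩ := hVCF f R hST.deg hER l c hcVK
    have hDj := (hVCF f R hST.deg hER j c (hST.Jv c hcJ j)).1
    have h10 : cr (VC f R l c) c ≤ cr (VC f R j c) c := (hTIN _ _ hDc hDj (hnest j hjl) c hcc).1
    have h11 : κ * cr (VC f R l c) c ≤ cr (VC f R (l + m) c) c := (mul_le_mul_of_nonneg_left h10 hκ.le).trans h9
    have h12 := hatr c hcp hcJ l m hm1 h11 (by rw [hVca]; exact hfm)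
    linarith
  obtain ⟨j, hj⟩ := hall.exists
  exact hj

end PL
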